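import Pool.Agent.WFT.Main

/-!
# The largest F-pure threshold of the maximal ideal of a non-ℚ-Gorenstein ring

For every `d ≥ 3` the largest value of the F-pure threshold `fpt(𝔪)` over all non-`ℚ`-Gorenstein
Noetherian local F-finite F-pure normal domains of dimension `d` (of all positive characteristics) is
`d - 3/2`. The value is attained, and it is attained in every characteristic.
-/

namespace Pool.Agent.Results.MP_7dd379_ag.LargestThreshold

universe u

open IsLocalRing

/-- The `R`-linear map `R → R^{1/q}`, `1 ↦ f^{1/q}`, splits: there is an `R`-linear map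
`Φ : R^{1/q} → R` with `Φ (f^{1/q}) = 1`. Here `Φ` is given by `φ z = Φ (z^{1/q})`; the `R`-linearity
of `Φ` says that `φ` is additive and `φ (r ^ q * z) = r * φ z`. -/
def FrobSplits (R : Type u) [CommRing R] (q : ℕ) (f : R) : Prop :=
  ∃ φ : R →+ R, (∀ r z, φ (r ^ q * z) = r * φ z) ∧ φ f = 1

/-- The pair `(R, 𝔞^t)` is F-pure: for every sufficiently large `q = p^e` there is
`f ∈ 𝔞^⌈t(q-1)⌉` such that `R → R^{1/q}`, `1 ↦ f^{1/q}`, splits. -/
def FPurePair (R : Type u) [CommRing R] (p : ℕ) (𝔞 : Ideal R) (t : ℝ) : Prop :=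
  ∃ e₀ : ℕ, ∀ e ≥ e₀, ∃ f ∈ 𝔞 ^ ⌈t * ((p : ℝ) ^ e - 1)⌉₊, FrobSplits R (p ^ e) f

/-- The F-pure threshold of `𝔞`: the supremum of all `t ≥ 0` such that `(R, 𝔞^t)` is F-pure. -/
noncomputable def fpt (R : Type u) [CommRing R] (p : ℕ) (𝔞 : Ideal R) : ℝ :=
  sSup {t : ℝ | 0 ≤ t ∧ FPurePair R p 𝔞 t}

/-- The `T`-module `M` is isomorphic to `Hom_A(T, A)`, on which `T` acts through the argument. -/
def IsoHom (A T M : Type u) [CommRing A] [CommRing T] [Algebra A T] [AddCommGroup M] [Module T M] :
    Prop :=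
  ∃ ε : M ≃+ (T →ₗ[A] A), ∀ (t : T) (w : M) (x : T), ε (t • w) x = ε w (t * x)

/-- `I` is a canonical ideal of the local ring `R`: there is a power series ring
`A = k[[x_1, …, x_n]]` over a field together with a finite injective homomorphism from `A` to the
completion `R^` of `R`, and the ideal `I R^` is isomorphic to the canonical module `Hom_A(R^, A)` of
`R^`. -/
def IsCanonicalIdeal (R : Type u) [CommRing R] [IsLocalRing R] (I : Ideal R) : Prop :=
  ∃ (n : ℕ) (k : Type u) (_ : Field k)
    (_ : Algebra (MvPowerSeries (Fin n) k) (AdicCompletion (maximalIdeal R) R)),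
    Function.Injective
      (algebraMap (MvPowerSeries (Fin n) k) (AdicCompletion (maximalIdeal R) R)) ∧
    Module.Finite (MvPowerSeries (Fin n) k) (AdicCompletion (maximalIdeal R) R) ∧
    IsoHom (MvPowerSeries (Fin n) k) (AdicCompletion (maximalIdeal R) R)
      (I.map (algebraMap R (AdicCompletion (maximalIdeal R) R)))

/-- The divisorial fractional ideal `R : I^n = {x ∈ Frac R | x I^n ⊆ R}`, whose divisor class is `-n`
times the class of `I`, is principal. -/
def ColonPrincipal (R : Type u) [CommRing R] (I : Ideal R) (n : ℕ) : Prop :=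
  ∃ c : FractionRing R, ∀ x : FractionRing R,
    (∀ y ∈ I ^ n, ∃ r : R, x * algebraMap R (FractionRing R) y =
      algebraMap R (FractionRing R) r) ↔ ∃ r : R, x = algebraMap R (FractionRing R) r * c

/-- The rings of the problem: `(R, 𝔪)` is a Noetherian local ring of characteristic `p`, F-finite,
F-pure, a normal domain, of Krull dimension `d`, and its canonical class is not torsion: it has a
canonical ideal `I` such that `R : I^n` is not principal for any `n ≥ 1`. -/
structure Admissible (p d : ℕ) [Fact p.Prime] (R : Type u) [CommRing R] [IsLocalRing R]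
    [CharP R p] : Prop where
  isNoetherianRing : IsNoetherianRing R
  isDomain : IsDomain R
  isIntegrallyClosed : IsIntegrallyClosed R
  fFinite : (frobenius R p).Finite
  fPure : FrobSplits R p 1
  dim : ringKrullDim R = d
  notQGorenstein : ∃ I : Ideal R, IsCanonicalIdeal R I ∧ ∀ n : ℕ, 1 ≤ n → ¬ ColonPrincipal R I n

/-- The set of the F-pure thresholds `fpt(𝔪)` of the rings of the problem of characteristic `p` and
dimension `d`. -/
def thresholds (p d : ℕ) [Fact p.Prime] : Set ℝ :=
  {t | ∃ (R : Type u) (_ : CommRing R) (_ : IsLocalRing R) (_ : CharP R p),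
    Admissible p d R ∧ t = fpt R p (maximalIdeal R)}

theorem Admissible.nonQGorenstein {p d : ℕ} [Fact p.Prime] {R : Type u} [CommRing R]
    [IsLocalRing R] [CharP R p] [IsDomain R] (h : Admissible p d R) : WFT.NonQGorenstein R := by
  obtain ⟨I, hI, h1⟩ := h.notQGorenstein
  exact ⟨I, hI, fun n hn hP => h1 n hn ((WFT.prinPow_iff R I n).1 hP)⟩

/-- **Main theorem.** Let `d ≥ 3`. The supremum `M_d` of `fpt(𝔪)` over all rings of the problem of
dimension `d` and of any characteristic is `d - 3/2` and is a maximum; the same holds for the rings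
of each fixed characteristic `p`; and for every ring of the problem the exponents `t` for which
`(R, 𝔪^t)` is F-pure are bounded by `d - 3/2`. -/
theorem result (d : ℕ) (hd : 3 ≤ d) :
    IsGreatest {t : ℝ | ∃ (p : ℕ) (_ : Fact p.Prime), t ∈ thresholds.{u} p d} ((d : ℝ) - 3 / 2) ∧
    (∀ (p : ℕ) [Fact p.Prime], IsGreatest (thresholds.{u} p d) ((d : ℝ) - 3 / 2)) ∧
    ∀ (p : ℕ) [Fact p.Prime] (R : Type u) [CommRing R] [IsLocalRing R] [CharP R p],
      Admissible p d R → ∀ t : ℝ, FPurePair R p (maximalIdeal R) t → t ≤ (d : ℝ) - 3 / 2 := by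
  have h1 : ∀ (p : ℕ) [Fact p.Prime], IsGreatest (thresholds.{u} p d) ((d : ℝ) - 3 / 2) := by
    intro p _
    constructor
    · obtain ⟨R, _, _, _, _, _, _, hfin, hpure, hdim, ⟨I, hI, hng⟩, hfpt⟩ :=
        WFT.exists_fpt_eq p d hd
      exact ⟨R, _, ‹_›, ‹_›, ⟨‹_›, ‹_›, ‹_›, hfin, hpure, hdim, I, hI, fun n hn hP =>
        hng n hn ((WFT.prinPow_iff R I n).2 hP)⟩, hfpt.symm⟩
    · rintro _ ⟨R, _, _, _, h, rfl⟩
      have := h.isDomain
      have := h.isNoetherianRing
      have := h.isIntegrallyClosed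
      exact WFT.fpt_le hd R h.fFinite h.fPure h.dim h.nonQGorenstein
  have h2 : Fact (Nat.Prime 2) := ⟨Nat.prime_two⟩
  refine ⟨⟨⟨2, h2, (h1 2).1⟩, ?_⟩, h1, ?_⟩
  · rintro t ⟨p, _, ht⟩
    exact (h1 p).2 ht
  · intro p _ R _ _ _ h t ht
    have := h.isDomain
    have := h.isNoetherianRing
    have := h.isIntegrallyClosed
    exact WFT.upper hd p R h.fFinite h.fPure h.dim h.nonQGorenstein t ht

end Pool.Agent.Results.MP_7dd379_ag.LargestThreshold
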